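import Pool.Agent.X172.MSS.Main

set_option autoImplicit false

namespace Pool.Agent.Results.MP_3489b6_co.HeightLowerBound

open Finset Matrix Pool.Agent.X172.MagLap Pool.Agent.X172.MSS

theorem height_bound {d : ℕ} (hd : 3 ≤ d) {V : Type} [Fintype V] [DecidableEq V] [Nonempty V]
    (G : SimpleGraph V) [DecidableRel G.Adj] (hdeg : ∀ v, d ≤ G.degree v) :
    (d : ℝ) - 2 * Real.sqrt ((d : ℝ) - 1) ≤ nu G := by
  apply nu_of_cert
  intro x hx
  set r := Real.sqrt ((d : ℝ) - 1) with hr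
  have hd' : (3 : ℝ) ≤ d := by exact_mod_cast hd
  have hr2 : r ^ 2 = (d : ℝ) - 1 := Real.sq_sqrt (by linarith)
  have hr1 : 1 < r := by
    rw [hr]
    exact Real.lt_sqrt_of_sq_lt (by nlinarith)
  have hr0 : 0 < r := by linarith
  have hinv : 1 / r < 1 := by
    rw [div_lt_one hr0]
    exact hr1
  have hdr : (d : ℝ) - d * (1 / r) - (d - 2 * r) = (d - 2) / r := by
    field_simp
    nlinarith [hr2]
  have hdr2 : (d : ℝ) - (d - 1) * (1 / r) - (d - 2 * r) = r := by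
    field_simp
    nlinarith [hr2]
  refine ⟨fun _ _ => r, fun _ _ _ => hr0, ?_, ?_⟩
  · intro v p hvp
    have hmem : p ∈ G.neighborFinset v := (G.mem_neighborFinset v p).mpr hvp
    rw [sum_const, card_erase_of_mem hmem, G.card_neighborFinset_eq_degree, nsmul_eq_mul]
    have h1 : (d : ℝ) ≤ G.degree v := by exact_mod_cast hdeg v
    have h2 : ((G.degree v - 1 : ℕ) : ℝ) = (G.degree v : ℝ) - 1 := by
      rw [Nat.cast_sub (by have := hdeg v; omega)]
      simp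
    rw [h2]
    nlinarith [mul_nonneg (sub_nonneg.mpr h1) (sub_nonneg.mpr hinv.le)]
  · intro v
    rw [sum_const, G.card_neighborFinset_eq_degree, nsmul_eq_mul]
    have h1 : (d : ℝ) ≤ G.degree v := by exact_mod_cast hdeg v
    have h3 : 0 < ((d : ℝ) - 2) / r := div_pos (by linarith) hr0
    nlinarith [mul_nonneg (sub_nonneg.mpr h1) (sub_nonneg.mpr hinv.le)]

/-- `ν_d`: the infimum of the magneto-spectral heights of the finite graphs (on the vertex sets
`Fin (n+1)`) with minimum degree at least `d`. -/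
noncomputable def nuInf (d : ℕ) : ℝ :=
  sInf {r : ℝ | ∃ (n : ℕ) (G : SimpleGraph (Fin (n + 1))) (_ : DecidableRel G.Adj),
    (∀ v, d ≤ G.degree v) ∧ r = nu G}

theorem nuInf_bound {d : ℕ} (hd : 3 ≤ d) : (d : ℝ) - 2 * Real.sqrt ((d : ℝ) - 1) ≤ nuInf d := by
  apply le_csInf
  · refine ⟨nu (⊤ : SimpleGraph (Fin (d + 1))), d, ⊤, inferInstance, ?_, rfl⟩
    intro v
    rw [SimpleGraph.complete_graph_degree, Fintype.card_fin]
    omega
  · rintro _ ⟨n, G, hG, hdeg, rfl⟩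
    exact height_bound hd G hdeg

/-- `ν_d ≥ d - 2√(d-1)` for all `d ≥ 3`, in particular `ν_3 ≥ 3 - 2√2 > 0`. -/
theorem result :
    (∀ (V : Type) [Fintype V] [DecidableEq V] [Nonempty V] (G : SimpleGraph V)
      [DecidableRel G.Adj] (d : ℕ), 3 ≤ d → (∀ v, d ≤ G.degree v) →
      (d : ℝ) - 2 * Real.sqrt ((d : ℝ) - 1) ≤ nu G) ∧
    (∀ d : ℕ, 3 ≤ d → (d : ℝ) - 2 * Real.sqrt ((d : ℝ) - 1) ≤ nuInf d) ∧
    3 - 2 * Real.sqrt 2 ≤ nuInf 3 ∧ 0 < nuInf 3 := by
  have h3 : 3 - 2 * Real.sqrt 2 ≤ nuInf 3 := by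
    have := nuInf_bound (le_refl 3)
    have e : ((3 : ℕ) : ℝ) - 1 = 2 := by norm_num
    rw [e] at this
    exact_mod_cast this
  refine ⟨fun V _ _ _ G _ d hd hdeg => height_bound hd G hdeg, fun d hd => nuInf_bound hd, h3, ?_⟩
  have h4 : Real.sqrt 2 < 3 / 2 := by
    rw [Real.sqrt_lt' (by norm_num)]
    norm_num
  linarith

end Pool.Agent.Results.MP_3489b6_co.HeightLowerBound
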